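import Pool.Agent.R941.FJ.Hyper

/-!
# Ascending series with abelian and locally finite factors

`C` is any class of groups with the closure properties `ClosedE C` which contains the metabelian
groups. All this is known for the class of the groups that satisfy the K- and L-theoretic
Farrell–Jones conjecture with coefficients and finite wreath products; the assembly map of Q1 is an
equivalence for all aspherical complexes with a torsion-free fundamental group in that class.

Let `N` be a normal subgroup of `G` with `G ⧸ N` in `C`, and suppose that `N` has an ascending series of
normal subgroups of `G` whose factors are abelian or locally finite: every normal subgroup `M < N` of `G`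
is properly contained in a normal subgroup `M' ≤ N` of `G` such that `M' ⧸ M` is abelian, or locally
finite, or (more generally) such that the groups `M' ⟨g⟩ ⧸ M`, `g` in `G`, are in `C`. Then `G` is in `C`.
The length of the series may be any ordinal.

In particular (`N = G`) all groups whose nontrivial quotients have a nontrivial normal subgroup which
is abelian or locally finite are in `C`: for instance all hyperabelian groups, all extensions of
locally finite groups by hyperabelian groups, the elementary amenable groups of finite Hirsch length,
the groups of Houghton, and the torsion-free groups `F ⧸ [R, R]` for `F` free and `F ⧸ R` in this class.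

Outline of the proof. A group `N ⟨g⟩` with a locally finite normal subgroup `N` is the directed
colimit of HNN extensions of finite groups, which embed in `F(X) ⋊ P` with `P` a finite group of
permutations that acts by permutations of the basis `X`: an isomorphism between two subgroups of a
finite group is induced by an inner automorphism of the group of all its permutations. By the extension
criterion `C` is closed under extensions with locally finite and with abelian kernels. Consider the
normal subgroups `M ≤ N` of `G` for which all groups `M ⟨g⟩`, `g` in `G`, are in `C`. They are closed under
unions of chains since `(⋃ M) ⟨g⟩ = ⋃ (M ⟨g⟩)`, and by the extension criterion a maximal one is equal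
to `N`.
-/

set_option autoImplicit false

namespace Pool.Agent.Results.MP_98022b_gt.AscendingSeries

open Pool.Agent.Y110.FJ Pool.Agent.R941.FJ

theorem result (C : ∀ (G : Type) [Group G], Prop) (hC : ClosedE C)
    (hmet : ∀ (S : Type) [Group S], (∀ a ∈ commutator S, ∀ b ∈ commutator S, a * b = b * a) → C S)
    (G : Type) [Group G] (N : Subgroup G) [N.Normal] (hQ : C (G ⧸ N))
    (h : ∀ M : Subgroup G, ∀ _ : M.Normal, M < N → ∃ M' : Subgroup G, M'.Normal ∧ M < M' ∧ M' ≤ N ∧
      ((∀ a ∈ M', ∀ b ∈ M', a * b * a⁻¹ * b⁻¹ ∈ M) ∨
       (∀ E : Set G, E.Finite → E ⊆ M' → M.relIndex (Subgroup.closure E) ≠ 0) ∨
       (∀ g : G, C ↥((M' ⊔ Subgroup.zpowers g).map (QuotientGroup.mk' M))))) : C G := by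
  refine hyper hC N hQ fun M hM hlt => ?_
  obtain ⟨M', hM', h1, h2, h3⟩ := h M hM hlt
  refine ⟨M', hM', h1, h2, fun g => ?_⟩
  rcases h3 with h3 | h3 | h3
  · exact factor_ab hC hmet M M' h3 g
  · exact factor_lf hC M M' h3 g
  · exact h3 g

end Pool.Agent.Results.MP_98022b_gt.AscendingSeries
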