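import Pool.Agent.R719.LF.Shp

set_option autoImplicit false

/-! Nonsingular quadratic forms over integral group rings which are diagonally dominant at symmetric
positions are simply isometric to integral ones, and the constant of dominance is sharp. -/

namespace Pool.Agent.Results.MP_98022b_gt.DominantForms

open Matrix

section defs

variable {Γ : Type} [Group Γ]

/-- the adjoint (conjugate transpose) of a matrix over `ℤΓ`, for the involution `g ↦ g⁻¹` -/
noncomputable def adjoint {κ μ : Type} (A : Matrix κ μ (MonoidAlgebra ℤ Γ)) :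
    Matrix μ κ (MonoidAlgebra ℤ Γ) :=
  Matrix.of fun j i => MonoidAlgebra.mapDomain (fun g => g⁻¹) (A i j)

/-- the sum of the absolute values of the coefficients -/
def norm1 (x : MonoidAlgebra ℤ Γ) : ℕ := ∑ g ∈ x.coeff.support, (x.coeff g).natAbs

/-- the `ε`-symmetric form `λ = ψ + εψ*` of the `ε`-quadratic form `ψ` -/
noncomputable def symmetrization {κ : Type} (ε : ℤ) (ψ : Matrix κ κ (MonoidAlgebra ℤ Γ)) :
    Matrix κ κ (MonoidAlgebra ℤ Γ) := ψ + ε • adjoint ψ

/-- Dominance at symmetric positions with the factor `c`: there are an involution `σ` of the index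
set and group elements `γ i` with `γ (σ i) = (γ i)⁻¹` such that, for `λ = ψ + εψ*` and all `i`, the
sum of the absolute values of all coefficients of all entries in row `i` of `λ`, except the
coefficient of `γ i` in the entry at `(i, σ i)`, is at most `c` times the absolute value of this
coefficient. -/
def DominantForm {κ : Type} [Fintype κ] (c : ℝ) (ε : ℤ) (ψ : Matrix κ κ (MonoidAlgebra ℤ Γ)) :
    Prop :=
  ∃ (σ : κ → κ) (γ : κ → Γ), (∀ i, σ (σ i) = i) ∧ (∀ i, γ (σ i) = (γ i)⁻¹) ∧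
    ∀ i, (∑ j, (norm1 (symmetrization ε ψ i j) : ℝ))
        - |((symmetrization ε ψ i (σ i)).coeff (γ i) : ℝ)|
      ≤ c * |((symmetrization ε ψ i (σ i)).coeff (γ i) : ℝ)|

/-- the square matrix `x` over `ℤΓ` is zero in the Whitehead group: stabilised by an identity block,
it is `± g` on one diagonal entry times a product of commutators of invertible matrices -/
def ZeroInWh {κ : Type} [Fintype κ] [DecidableEq κ]
    (x : Matrix κ κ (MonoidAlgebra ℤ Γ)) : Prop :=
  ∃ (m : ℕ) (g : Γ) (ε : ℤˣ)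
    (C : (Matrix (κ ⊕ Fin (m + 1)) (κ ⊕ Fin (m + 1)) (MonoidAlgebra ℤ Γ))ˣ),
    C ∈ commutator (Matrix (κ ⊕ Fin (m + 1)) (κ ⊕ Fin (m + 1)) (MonoidAlgebra ℤ Γ))ˣ ∧
    Matrix.fromBlocks x 0 0 (1 : Matrix (Fin (m + 1)) (Fin (m + 1)) (MonoidAlgebra ℤ Γ)) =
      Matrix.diagonal (fun i : κ ⊕ Fin (m + 1) =>
          if i = Sum.inr (0 : Fin (m + 1)) then
            (MonoidAlgebra.single g ((ε : ℤ)) : MonoidAlgebra ℤ Γ) else 1) *
        (↑C : Matrix (κ ⊕ Fin (m + 1)) (κ ⊕ Fin (m + 1)) (MonoidAlgebra ℤ Γ))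

/-- simple isometry of `ε`-quadratic forms (matrices modulo the matrices `χ - εχ*`) -/
def SimplyIsometric {κ : Type} [Fintype κ] [DecidableEq κ] (ε : ℤ)
    (ψ ψ' : Matrix κ κ (MonoidAlgebra ℤ Γ)) : Prop :=
  ∃ (E : (Matrix κ κ (MonoidAlgebra ℤ Γ))ˣ) (χ : Matrix κ κ (MonoidAlgebra ℤ Γ)),
    ZeroInWh E.val ∧ E.val * ψ * adjoint E.val = ψ' + (χ - ε • adjoint χ)

/-- The sum of the planes with `q(x) = a k`, `q(y) = b k` and `λ(x, y) = 1`: the hyperbolic plane for
`a k = b k = 0`, the plane of Arf invariant one for `a k = b k = 1`. -/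
noncomputable def planes {μ : Type} [DecidableEq μ] (a b : μ → ℤ) :
    Matrix (μ ⊕ μ) (μ ⊕ μ) (MonoidAlgebra ℤ Γ) :=
  fromBlocks (diagonal fun k => MonoidAlgebra.single 1 (a k)) 1 0
    (diagonal fun k => MonoidAlgebra.single 1 (b k))

end defs

section aux

open TH57.Thr TH6.LF TH6.CX Pool.Agent.Y75.Th Pool.Agent.Y35.KC.TTm Pool.Agent.R719.DD
  Pool.Agent.R719.LF

variable {Γ : Type} [Group Γ] {κ : Type} [Fintype κ] [DecidableEq κ]

theorem simple_of_iso {ε : ℤ} {ψ ψ' : Matrix κ κ (MonoidAlgebra ℤ Γ)} (h : Iso ε ψ ψ') :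
    SimplyIsometric ε ψ ψ' := by
  obtain ⟨E, χ, h1, h2⟩ := h
  exact ⟨E, χ, TT_explicit E h1, h2⟩

/-- signs for the dominating coefficients -/
theorem dom_of_dominant {ε : ℤ} (hε : ε = 1 ∨ ε = -1) {ψ : Matrix κ κ (MonoidAlgebra ℤ Γ)}
    (h : DominantForm 1 ε ψ) (hu : IsUnit (lam ε ψ)) : ∃ σ γ s, DomF ε ψ σ γ s := by
  have hεε : ε * ε = 1 := by rcases hε with rfl | rfl <;> norm_num
  obtain ⟨σ, γ, h1, h2, h3⟩ := h
  have h4 : ∀ i, ∑ j, (l1 (lam ε ψ i j) : ℤ) ≤ 2 * |(lam ε ψ i (σ i)).coeff (γ i)| := by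
    intro i
    have e1 : (∑ j, (norm1 (symmetrization ε ψ i j) : ℝ))
        ≤ 2 * |((symmetrization ε ψ i (σ i)).coeff (γ i) : ℝ)| := by
      have := h3 i
      linarith
    have e2 : (∑ j, (l1 (lam ε ψ i j) : ℝ)) ≤ 2 * |((lam ε ψ i (σ i)).coeff (γ i) : ℝ)| := e1
    exact_mod_cast e2
  have hne : ∀ i, (lam ε ψ i (σ i)).coeff (γ i) ≠ 0 := by
    intro i hi
    have e1 := h4 i
    rw [hi, abs_zero, mul_zero] at e1
    have e2 : ∀ j, lam ε ψ i j = 0 := by
      intro j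
      rw [← l1_zero_iff]
      have e3 := (Finset.single_le_sum (f := fun j => (l1 (lam ε ψ i j) : ℤ))
        (fun _ _ => Nat.cast_nonneg _) (Finset.mem_univ j)).trans e1
      have e4 : (0 : ℤ) ≤ (l1 (lam ε ψ i j) : ℤ) := Nat.cast_nonneg _
      have e5 : (l1 (lam ε ψ i j) : ℤ) = 0 := le_antisymm e3 e4
      exact_mod_cast e5
    obtain ⟨L, hL⟩ := hu
    have e3 : (L.val * L⁻¹.val) i i = 0 := by
      rw [Matrix.mul_apply, hL]
      exact Finset.sum_eq_zero fun j _ => by rw [e2, zero_mul]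
    rw [L.mul_inv, Matrix.one_apply_eq] at e3
    have e4 := congrArg (fun x : MonoidAlgebra ℤ Γ => x.coeff 1) e3
    simp [MonoidAlgebra.one_def] at e4
  have hsym : ∀ i, (lam ε ψ (σ i) (σ (σ i))).coeff (γ (σ i))
      = ε * (lam ε ψ i (σ i)).coeff (γ i) := by
    intro i
    rw [h1, h2]
    have e1 := congrArg (fun x : MonoidAlgebra ℤ Γ => x.coeff (γ i)⁻¹) (lam_symm ε hεε ψ i (σ i))
    simp only [coeff_bar, inv_inv, coeff_zs] at e1
    rw [e1, ← mul_assoc, hεε, one_mul]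
  refine ⟨σ, γ, fun i => ((lam ε ψ i (σ i)).coeff (γ i)).sign, h1, h2, fun i => ?_, fun i => ?_,
    fun i => ?_⟩
  · rcases lt_trichotomy ((lam ε ψ i (σ i)).coeff (γ i)) 0 with h | h | h
    · rw [Int.sign_eq_neg_one_of_neg h]; norm_num
    · exact absurd h (hne i)
    · rw [Int.sign_eq_one_of_pos h]; norm_num
  · rw [hsym, Int.sign_mul]
    rcases hε with rfl | rfl <;> rfl
  · rw [Int.sign_mul_self_eq_abs]
    exact h4 i

end aux

open Pool.Agent.R719.LF in
/-- Let `Γ` be a group and `ε = ±1`. (1) If `Γ` has no element of order two (for instance, if it is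
torsion-free), each nonsingular `ε`-quadratic form over `ℤΓ` that is dominant at symmetric positions
(with the factor `1`) is, up to the order of the basis, simply isometric to a sum of planes defined
over `ℤ`, which are all hyperbolic if `ε = 1`. (2) The factor `1` is sharp: for every real `c > 1`,
each `ε`-quadratic form of even rank over `ℤΓ` is, after adding hyperbolic planes, simply isometric to
a form that is dominant at symmetric positions with the factor `c`. -/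
theorem result (Γ : Type) [Group Γ] (ε : ℤ) (hε : ε = 1 ∨ ε = -1) :
    ((∀ g : Γ, g * g = 1 → g = 1) →
      ∀ (κ : Type) [Fintype κ] [DecidableEq κ] (ψ : Matrix κ κ (MonoidAlgebra ℤ Γ)),
        IsUnit (symmetrization ε ψ) → DominantForm 1 ε ψ →
        ∃ (m : ℕ) (e : Fin m ⊕ Fin m ≃ κ) (a b : Fin m → ℤ),
          (∀ k, (a k = 0 ∨ a k = 1) ∧ (b k = 0 ∨ b k = 1)) ∧
          (ε = 1 → ∀ k, a k = 0 ∧ b k = 0) ∧
          SimplyIsometric ε (ψ.submatrix e e) (planes a b)) ∧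
    ∀ c : ℝ, 1 < c → ∀ (m : ℕ)
      (ψ : Matrix (Fin m ⊕ Fin m) (Fin m ⊕ Fin m) (MonoidAlgebra ℤ Γ)),
      ∃ (N : ℕ) (φ : Matrix ((Fin m ⊕ Fin m) ⊕ (Fin m × Fin N ⊕ Fin m × Fin N))
        ((Fin m ⊕ Fin m) ⊕ (Fin m × Fin N ⊕ Fin m × Fin N)) (MonoidAlgebra ℤ Γ)),
        SimplyIsometric ε (fromBlocks ψ 0 0 (planes (fun _ => 0) (fun _ => 0))) φ ∧
        DominantForm c ε φ := by
  classical
  refine ⟨fun h2 κ _ _ ψ hu hd => ?_, fun c hc m ψ => ?_⟩
  · obtain ⟨σ, γ, s, h⟩ := dom_of_dominant hε hd hu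
    obtain ⟨μ, i1, i2, e, a, b, h3, h4, h5⟩ := main h2 hε _ κ rfl ψ σ γ s h hu
    let w : Fin (Fintype.card μ) ≃ μ := (Fintype.equivFin μ).symm
    refine ⟨Fintype.card μ, (Equiv.sumCongr w w).trans e, a ∘ w, b ∘ w, fun k => h3 _,
      fun hh k => h4 hh _, ?_⟩
    have h6 := h5.reindex (Equiv.sumCongr w w)
    have h7 : (pf a b : Matrix (μ ⊕ μ) (μ ⊕ μ) (MonoidAlgebra ℤ Γ)).submatrix
        (Equiv.sumCongr w w) (Equiv.sumCongr w w) = planes (a ∘ w) (b ∘ w) := by
      ext1 x y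
      rcases x with x | x <;> rcases y with y | y <;>
        simp [pf, planes, Matrix.one_apply, Matrix.diagonal_apply]
    rw [h7] at h6
    exact simple_of_iso h6
  · obtain ⟨N, hN⟩ := sharp hε c hc ψ
    refine ⟨N, dform ψ N, ?_, hN N le_rfl⟩
    have h3 : (planes (fun _ => 0) (fun _ => 0) : Matrix (Fin m × Fin N ⊕ Fin m × Fin N)
        (Fin m × Fin N ⊕ Fin m × Fin N) (MonoidAlgebra ℤ Γ)) = hyp Γ (Fin m × Fin N) := by
      ext1 x y
      rcases x with x | x <;> rcases y with y | y <;>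
        simp [hyp, planes]
    rw [h3]
    exact simple_of_iso (iso_dform ε ψ N)

end Pool.Agent.Results.MP_98022b_gt.DominantForms
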