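import Pool.Agent.R791.Herm

/-!
# Determinants and signatures of forms over group rings of torsion-free linear groups

Let `Γ` be a torsion-free group with a faithful representation `φ` of dimension `N` over a field
`K`. Suppose that the characteristic of `K` is positive, or `N ≤ 2`, or for every finitely
generated subgroup `H` of `Γ` and every `u ≠ 1` in `H` with `φ(u)` unipotent the centraliser of `u`
in `H` is commutative or has a homomorphism to `ℤ` which does not vanish at `u`. Let `h` be a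
nonsingular hermitian or skew-hermitian matrix over `ℤΓ` and let `h₁` be its image over `ℤ`.
For every representation `ρ` of `Γ` of finite dimension `d` over a field the determinant of `ρ(h)`
is the `d`-th power of the determinant of `h₁`, and for every unitary representation `ρ` the
signatures of `ρ(h)` and of `d` copies of `h₁` are congruent modulo four.
-/

set_option autoImplicit false

namespace Pool.Agent.Results.MP_98022b_gt.FormDeterminants

open Pool.Agent.R791 Matrix

universe u v w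

theorem result {Γ : Type u} [Group Γ] (htf : ∀ g : Γ, ∀ m : ℕ, 0 < m → g ^ m = 1 → g = 1)
    {K : Type v} [Field K] {N : ℕ} (φ : Γ →* GL (Fin N) K) (hφ : Function.Injective φ)
    (hK : (∃ p : ℕ, p.Prime ∧ CharP K p) ∨ N ≤ 2 ∨
      ∀ H : Subgroup Γ, H.FG → ∀ g ∈ H, g ≠ 1 → IsNilpotent ((φ g).val - 1) →
        (∀ x ∈ H, ∀ y ∈ H, x * g = g * x → y * g = g * y → x * y = y * x) ∨
        ∃ f : Γ → ℤ, (∀ x ∈ H, ∀ y ∈ H, x * g = g * x → y * g = g * y →
          f (x * y) = f x + f y) ∧ f g ≠ 0)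
    (ε : ℤ) (hε : ε = 1 ∨ ε = -1) {n : ℕ} (h : Matrix (Fin n) (Fin n) (MonoidAlgebra ℤ Γ))
    (hu : IsUnit h) (hh : ∀ i j g, (h i j).coeff g = ε * (h j i).coeff g⁻¹) :
    (∀ (L : Type w) [Field L] (d : ℕ) (ρ : Γ →* Matrix (Fin d) (Fin d) L),
      (repMat ρ h).det = ((augMat h).det : L) ^ d) ∧
    ∀ (d : ℕ) (ρ : Γ →* Matrix (Fin d) (Fin d) ℂ), (∀ g, ρ g⁻¹ = (ρ g)ᴴ) →
      ∀ c : ℂ, c ≠ 0 → star c = (ε : ℂ) * c →
        ∃ (h₁ : (c • repMat ρ h).IsHermitian)
          (h₂ : (c • (augMat h).map (Int.cast : ℤ → ℂ)).IsHermitian),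
          signature h₁ ≡ d * signature h₂ [ZMOD 4] := by
  obtain ⟨A, rfl⟩ := hu
  have hn := Pool.Agent.Y72.Un.cn_of φ hφ htf hK
  have hεε : ((ε : ℂ)) * ε = 1 := by rcases hε with rfl | rfl <;> norm_num
  have key : ∀ (L : Type w) [Field L] (d : ℕ) (ρ : Γ →* Matrix (Fin d) (Fin d) L),
      (repMat ρ A.val).det = ((augMat A.val).det : L) ^ d :=
    fun L _ d ρ => det_form hn ε hε A hh ρ
  have key0 : ∀ (d : ℕ) (ρ : Γ →* Matrix (Fin d) (Fin d) ℂ),
      (repMat ρ A.val).det = ((augMat A.val).det : ℂ) ^ d :=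
    fun d ρ => det_form hn ε hε A hh ρ
  refine ⟨key, ?_⟩
  intro d ρ hρ c hc0 hc
  have e1 : (c • repMat ρ A.val).IsHermitian := by
    unfold Matrix.IsHermitian
    rw [conjTranspose_smul, repMat_herm ε A.val hh ρ hρ, smul_smul, hc, mul_comm (ε : ℂ) c,
      mul_assoc, hεε, mul_one]
  have e2 : (c • (augMat A.val).map (Int.cast : ℤ → ℂ)).IsHermitian := by
    unfold Matrix.IsHermitian
    rw [conjTranspose_smul, augMat_herm ε A.val hh hε, smul_smul, hc, mul_comm (ε : ℂ) c,
      mul_assoc, hεε, mul_one]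
  have hdet : ((augMat A.val).map (Int.cast : ℤ → ℂ)).det = ((augMat A.val).det : ℂ) :=
    (RingHom.map_det (Int.castRingHom ℂ) (augMat A.val)).symm
  have hunit : ((augMat A.val).det : ℂ) ≠ 0 := by
    intro h0
    have h1 := key0 1 (1 : Γ →* Matrix (Fin 1) (Fin 1) ℂ)
    rw [h0, zero_pow one_ne_zero] at h1
    have h2 := det_unit (L := ℂ) (d := 1) A (1 : Γ →* Matrix (Fin 1) (Fin 1) ℂ)
    exact h2 h1
  refine ⟨e1, e2, ?_⟩
  apply signature_pow e1 e2 d
  · rw [Fintype.card_prod, Fintype.card_fin, Fintype.card_fin]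
  · rw [Matrix.det_smul, Matrix.det_smul, key0 d ρ, hdet, Fintype.card_prod, Fintype.card_fin,
      Fintype.card_fin, mul_pow, pow_mul]
  · rw [Matrix.det_smul, hdet]
    exact mul_ne_zero (pow_ne_zero _ hc0) hunit

end Pool.Agent.Results.MP_98022b_gt.FormDeterminants
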