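import Pool.Agent.R472.GridQuad

set_option autoImplicit false

/-! # Quadratic forms over integral group rings and the triangular lattice

Every `ε`-quadratic form over the integral group ring of a group with generating set `S` becomes,
after adding hyperbolic planes, simply isometric to a form whose basis vectors are points of the
triangular lattice, whose entries are zero except between neighbouring points, with entries `± s`,
`s ∈ S`, and at most three neighbours for each basis vector. Nonsingular forms of this kind (with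
entries `± g`, at any positions) with at most two neighbours for each basis vector are simply isometric
to sums of hyperbolic planes.

Outline of (1). A program of elementary matrices between neighbouring wires computes
`(1, 0; ψ, 1)`; let `v` run over its variables, `(1 - N) F = C` be its equations, and `D_x F = 1`,
`D_y F = ψ` its outputs. On `ℤΓⁿ ⊕ ℤΓ^V ⊕ ℤΓ^V` the form with `φ(λ, x) = - C`, `φ(λ, z) = 1 - N`,
`φ(z, z) = K = D_x* D_y` is the image of `ψ ⊕ (hyperbolic planes)` under the simple isometry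
`E = (1, ε F* K*, -F*; 0, 1 - N, 0; 0, K, 1)`, since `F* K F = ψ`. The Lagrange multipliers `λ` are at
the places of the equations, the `z` at those of the variables; the outputs are taken on pairs of
neighbouring wires, which gives the diagonal edges. (2) The graph of a nonsingular form with at most
two neighbours has no cycle (modulo two and modulo `Γ` the sum of the vectors of the cycle would be in
the radical), so it has a colouring with two colours, and the form is a hyperbolic form twisted by an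
invertible matrix with at most two entries in each row, which is zero in the Whitehead group
(`MP_8f66f0_al.GridForm`). The set-up of simple isometries is that of `DominantForms` (helper719). -/

namespace Pool.Agent.Results.MP_98022b_gt.GridForms

open Matrix

section defs

variable {Γ : Type} [Group Γ]

/-- the adjoint (conjugate transpose) of a matrix over `ℤΓ`, for the involution `g ↦ g⁻¹` -/
noncomputable def adjoint {κ μ : Type} (A : Matrix κ μ (MonoidAlgebra ℤ Γ)) :
    Matrix μ κ (MonoidAlgebra ℤ Γ) :=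
  Matrix.of fun j i => MonoidAlgebra.mapDomain (fun g => g⁻¹) (A i j)

/-- the `ε`-symmetric form `λ = ψ + εψ*` of the `ε`-quadratic form `ψ` -/
noncomputable def symmetrization {κ : Type} (ε : ℤ) (ψ : Matrix κ κ (MonoidAlgebra ℤ Γ)) :
    Matrix κ κ (MonoidAlgebra ℤ Γ) := ψ + ε • adjoint ψ

/-- neighbouring points of the triangular lattice: the difference is `± (1, 0)`, `± (0, 1)` or
`± (1, 1)` -/
def Neighbours (a b : ℤ × ℤ) : Prop :=
  b - a = (1, 0) ∨ a - b = (1, 0) ∨ b - a = (0, 1) ∨ a - b = (0, 1) ∨ b - a = (1, 1) ∨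
    a - b = (1, 1)

/-- The basis vectors of the form `φ` are at different points of the triangular lattice, entries are
zero except between neighbouring points, nonzero entries are `± s` with `s = 1`, `s ∈ S` or
`s⁻¹ ∈ S`, at most one of `φ i j` and `φ j i` is not zero, and each basis vector is paired nontrivially
with at most three others. -/
def OnLattice (S : Set Γ) {κ : Type} (φ : Matrix κ κ (MonoidAlgebra ℤ Γ)) : Prop :=
  ∃ pos : κ → ℤ × ℤ, Function.Injective pos ∧ (∀ i j, φ i j ≠ 0 → Neighbours (pos i) (pos j)) ∧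
    (∀ i j, φ i j ≠ 0 → φ j i = 0) ∧
    (∀ i j, φ i j = 0 ∨ ∃ s : Γ, (s = 1 ∨ s ∈ S ∨ s⁻¹ ∈ S) ∧
      (φ i j = MonoidAlgebra.single s 1 ∨ φ i j = MonoidAlgebra.single s (-1))) ∧
    ∀ i, {j | φ i j ≠ 0 ∨ φ j i ≠ 0}.ncard ≤ 3

/-- All nonzero entries are `± g`, at most one of `φ i j` and `φ j i` is not zero, and each basis
vector is paired nontrivially with at most two others. -/
def AtMostTwo {κ : Type} (φ : Matrix κ κ (MonoidAlgebra ℤ Γ)) : Prop :=
  (∀ i j, φ i j ≠ 0 → φ j i = 0) ∧
    (∀ i j, φ i j = 0 ∨ ∃ g : Γ, φ i j = MonoidAlgebra.single g 1 ∨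
      φ i j = MonoidAlgebra.single g (-1)) ∧
    ∀ i, {j | φ i j ≠ 0 ∨ φ j i ≠ 0}.ncard ≤ 2

/-- the square matrix `x` over `ℤΓ` is zero in the Whitehead group: stabilised by an identity block,
it is `± g` on one diagonal entry times a product of commutators of invertible matrices -/
def ZeroInWh {κ : Type} [Fintype κ] [DecidableEq κ]
    (x : Matrix κ κ (MonoidAlgebra ℤ Γ)) : Prop :=
  ∃ (m : ℕ) (g : Γ) (ε : ℤˣ)
    (C : (Matrix (κ ⊕ Fin (m + 1)) (κ ⊕ Fin (m + 1)) (MonoidAlgebra ℤ Γ))ˣ),
    C ∈ commutator (Matrix (κ ⊕ Fin (m + 1)) (κ ⊕ Fin (m + 1)) (MonoidAlgebra ℤ Γ))ˣ ∧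
    Matrix.fromBlocks x 0 0 (1 : Matrix (Fin (m + 1)) (Fin (m + 1)) (MonoidAlgebra ℤ Γ)) =
      Matrix.diagonal (fun i : κ ⊕ Fin (m + 1) =>
          if i = Sum.inr (0 : Fin (m + 1)) then
            (MonoidAlgebra.single g ((ε : ℤ)) : MonoidAlgebra ℤ Γ) else 1) *
        (↑C : Matrix (κ ⊕ Fin (m + 1)) (κ ⊕ Fin (m + 1)) (MonoidAlgebra ℤ Γ))

/-- simple isometry of `ε`-quadratic forms (matrices modulo the matrices `χ - εχ*`) -/
def SimplyIsometric {κ : Type} [Fintype κ] [DecidableEq κ] (ε : ℤ)
    (ψ ψ' : Matrix κ κ (MonoidAlgebra ℤ Γ)) : Prop :=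
  ∃ (E : (Matrix κ κ (MonoidAlgebra ℤ Γ))ˣ) (χ : Matrix κ κ (MonoidAlgebra ℤ Γ)),
    ZeroInWh E.val ∧ E.val * ψ * adjoint E.val = ψ' + (χ - ε • adjoint χ)

/-- the sum of hyperbolic planes, one for each element of `ν` -/
noncomputable def hyperbolic (ν : Type) [DecidableEq ν] :
    Matrix (ν ⊕ ν) (ν ⊕ ν) (MonoidAlgebra ℤ Γ) := fromBlocks 0 1 0 0

end defs

open TH57.Thr TH6.LF TH6.CX Pool.Agent.Y75.Th Pool.Agent.R719.DD Pool.Agent.R719.LF
  Pool.Agent.R472.Grid in
/-- Let `Γ` be any group, `S` a set of generators of `Γ` and `ε = ±1`.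

(1) Every `ε`-quadratic form over `ℤΓ` (nonsingular or not) becomes after adding hyperbolic planes
simply isometric to a form on the triangular lattice with entries `0` and `± s`, zero diagonal and at
most three neighbours for each basis vector; this form is nonsingular if the given one is.
(2) Three cannot be replaced by two: a nonsingular form with entries `0` and `± g` (`g` any elements of
`Γ`, no condition on the positions), zero diagonal, and at most two neighbours for each basis vector is,
up to the order of the basis, simply isometric to a sum of hyperbolic planes. -/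
theorem result (Γ : Type) [Group Γ] (S : Set Γ) (hS : Subgroup.closure S = ⊤) (ε : ℤ)
    (hε : ε = 1 ∨ ε = -1) :
    (∀ (n : ℕ) (ψ : Matrix (Fin n) (Fin n) (MonoidAlgebra ℤ Γ)),
      ∃ (ν : Type) (_ : Fintype ν) (_ : DecidableEq ν)
        (φ : Matrix (Fin n ⊕ (ν ⊕ ν)) (Fin n ⊕ (ν ⊕ ν)) (MonoidAlgebra ℤ Γ)),
        OnLattice S φ ∧ SimplyIsometric ε (fromBlocks ψ 0 0 (hyperbolic ν)) φ ∧
        (IsUnit (symmetrization ε ψ) → IsUnit (symmetrization ε φ))) ∧
    (∀ (κ : Type) [Fintype κ] [DecidableEq κ] (φ : Matrix κ κ (MonoidAlgebra ℤ Γ)),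
      IsUnit (symmetrization ε φ) → AtMostTwo φ →
      ∃ (ν : Type) (_ : Fintype ν) (_ : DecidableEq ν) (e : ν ⊕ ν ≃ κ),
        SimplyIsometric ε (φ.submatrix e e) (hyperbolic ν)) := by
  classical
  have hεε : ε * ε = 1 := by rcases hε with rfl | rfl <;> norm_num
  let G : Set (MonoidAlgebra ℤ Γ) := {x | ∃ s : Γ, (s = 1 ∨ s ∈ S ∨ s⁻¹ ∈ S) ∧
      (x = MonoidAlgebra.single s 1 ∨ x = MonoidAlgebra.single s (-1))}
  have h1 : (1 : MonoidAlgebra ℤ Γ) ∈ G := ⟨1, Or.inl rfl, Or.inl MonoidAlgebra.one_def⟩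
  have hneg : ∀ g ∈ G, -g ∈ G := by
    rintro _ ⟨s, hs, rfl | rfl⟩
    · exact ⟨s, hs, Or.inr (by rw [MonoidAlgebra.single_neg])⟩
    · exact ⟨s, hs, Or.inl (by rw [← MonoidAlgebra.single_neg]; norm_num)⟩
  refine ⟨fun n ψ => ?_, fun κ _ _ φ hu h => ?_⟩
  · obtain ⟨ν, i1, i2, φ, ⟨pos, a1, a2, a3, a4, a5⟩, hφ⟩ := tri_form h1 hneg (genBy S hS) ε hεε ψ
    refine ⟨ν, i1, i2, φ, ⟨pos, a1, fun i j h => ?_, a3, a4, a5⟩, ?_, fun hu => ?_⟩
    · have h2 := a2 i j h
      unfold TriAdj GridAdj at h2
      unfold Neighbours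
      simp only [Prod.ext_iff, Prod.fst_sub, Prod.snd_sub]
      omega
    · obtain ⟨E, χ, b1, b2⟩ := hφ
      exact ⟨E, χ, TT_explicit E b1, b2⟩
    · exact iso_unit hεε hφ (unit_stab hεε hu)
  · obtain ⟨μ, i1, i2, e, E, χ, b1, b2⟩ := two_hyp ε hεε φ hu h.1 h.2.1 h.2.2
    exact ⟨μ, i1, i2, e, E, χ, TT_explicit E b1, b2⟩

end Pool.Agent.Results.MP_98022b_gt.GridForms
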